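import Pool.Agent.Lib.MP_6bc78b_nt.MS.P3.Iface

/-! Module R2 of ms3_modules: Mellin inversion of the `n`-sum, continuity in `A`. -/

set_option autoImplicit false

open Complex Filter Topology ArithmeticFunction

namespace Pool.Agent.Lib.MP_6bc78b_nt.MS.P3.H33

open Pool.Agent.Lib.MP_6bc78b_nt.MS.P3

theorem cpow_div (n m : ℕ) (hn : 0 < n) (hm : 0 < m) (s : ℂ) :
    ((((n : ℝ) / (m : ℝ)) : ℝ) : ℂ) ^ (-s) = (n : ℂ) ^ (-s) * (m : ℂ) ^ s := by
  have h1 : ((((n : ℝ) / (m : ℝ)) : ℝ) : ℂ) = (((n : ℝ) : ℂ)) * ((((m : ℝ)⁻¹ : ℝ)) : ℂ) := by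
    push_cast; rw [div_eq_mul_inv]
  rw [h1, Complex.mul_cpow_ofReal_nonneg (by positivity) (by positivity)]
  congr 1
  · push_cast
    rw [Complex.inv_cpow, Complex.cpow_neg, inv_inv]
    rw [Complex.natCast_arg]
    exact Real.pi_pos.ne

theorem norm_cpow_pos {x : ℝ} (hx : 0 < x) (σ y : ℝ) :
    ‖(x : ℂ) ^ (-((σ : ℂ) + y * I))‖ = x ^ (-σ) := by
  rw [Complex.norm_cpow_eq_rpow_re_of_pos hx]
  simp

/-- the weight decays like every power -/
theorem F_bound (hGM : GmStatement) (j : ℕ) (T σ x : ℝ) (hT : 3 ≤ T) (hσ : 0 < σ) (hx : 0 < x) :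
    |Real.log x ^ j * GG T x| ≤
      x ^ (-σ) * ((2 * Real.pi)⁻¹ * ∫ y : ℝ, ‖Gm j T (σ + y * I)‖) := by
  obtain ⟨h1, h2⟩ := hGM.1 j T σ x hT hσ hx
  have h3 : |Real.log x ^ j * GG T x| = ‖((Real.log x ^ j * GG T x : ℝ) : ℂ)‖ := by
    rw [Complex.norm_real, Real.norm_eq_abs]
  rw [h3, h2, norm_mul, norm_inv, Complex.norm_real, Real.norm_of_nonneg (by positivity)]
  have h4 : ‖∫ y : ℝ, (x : ℂ) ^ (-((σ : ℂ) + y * I)) * Gm j T (σ + y * I)‖ ≤
      x ^ (-σ) * ∫ y : ℝ, ‖Gm j T (σ + y * I)‖ := by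
    refine (MeasureTheory.norm_integral_le_integral_norm _).trans ?_
    rw [← MeasureTheory.integral_const_mul]
    refine le_of_eq (MeasureTheory.integral_congr_ae (Eventually.of_forall fun y => ?_))
    simp only [norm_mul, norm_cpow_pos hx]
  calc (2 * Real.pi)⁻¹ * ‖∫ y : ℝ, (x : ℂ) ^ (-((σ : ℂ) + y * I)) * Gm j T (σ + y * I)‖
      ≤ (2 * Real.pi)⁻¹ * (x ^ (-σ) * ∫ y : ℝ, ‖Gm j T (σ + y * I)‖) := by gcongr
    _ = _ := by ring

/-! ### Size of `hh` -/

theorem conv_bound (f g : ArithmeticFunction ℂ) (k : ℕ) (hf : ∀ n, ‖f n‖ ≤ (n : ℝ) ^ k)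
    (hg : ∀ n, ‖g n‖ ≤ (n : ℝ) ^ k) (n : ℕ) : ‖(f * g) n‖ ≤ (n : ℝ) ^ (k + 1) := by
  rw [ArithmeticFunction.mul_apply]
  refine (norm_sum_le _ _).trans ?_
  have h1 : ∀ x ∈ n.divisorsAntidiagonal, ‖f x.1 * g x.2‖ ≤ (n : ℝ) ^ k := by
    intro x hx
    rw [Nat.mem_divisorsAntidiagonal] at hx
    rw [norm_mul, ← hx.1]
    push_cast
    rw [mul_pow]
    exact mul_le_mul (hf _) (hg _) (norm_nonneg _) (by positivity)
  refine (Finset.sum_le_card_nsmul _ _ _ h1).trans ?_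
  rw [nsmul_eq_mul, pow_succ, mul_comm]
  have h2 : n.divisorsAntidiagonal.card ≤ n := by
    rw [← Nat.map_div_right_divisors, Finset.card_map]
    exact Nat.card_divisors_le_self n
  have h3 : (n.divisorsAntidiagonal.card : ℝ) ≤ n := by exact_mod_cast h2
  gcongr

theorem bound_mono {f : ArithmeticFunction ℂ} {k l : ℕ} (hk : 1 ≤ k) (hkl : k ≤ l)
    (hf : ∀ n, ‖f n‖ ≤ (n : ℝ) ^ k) (n : ℕ) : ‖f n‖ ≤ (n : ℝ) ^ l := by
  rcases Nat.eq_zero_or_pos n with h | h
  · subst h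
    have := hf 0
    rw [Nat.cast_zero, zero_pow (by omega)] at this ⊢
    exact this
  · refine (hf n).trans ?_
    exact pow_le_pow_right₀ (by exact_mod_cast h) hkl

theorem pw_bound {a : ℂ} (ha : -1 ≤ a.re) (n : ℕ) : ‖pw a n‖ ≤ (n : ℝ) ^ 1 := by
  show ‖(if n = 0 then (0 : ℂ) else (n : ℂ) ^ (-a))‖ ≤ (n : ℝ) ^ 1
  split_ifs with h
  · simp [h]
  · have h1 : 0 < n := Nat.pos_of_ne_zero h
    rw [Complex.norm_natCast_cpow_of_pos h1, Complex.neg_re]
    rw [← Real.rpow_natCast]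
    exact Real.rpow_le_rpow_of_exponent_le (by exact_mod_cast h1) (by push_cast; linarith)

theorem muC_apply (n : ℕ) : muC n = ((ArithmeticFunction.moebius n : ℤ) : ℂ) := by
  unfold muC
  rw [ArithmeticFunction.intCoe_apply]

theorem norm_muC_le (n : ℕ) : ‖muC n‖ ≤ 1 := by
  rw [muC_apply, Complex.norm_intCast]
  exact_mod_cast ArithmeticFunction.abs_moebius_le_one

theorem muC_bound (n : ℕ) : ‖muC n‖ ≤ (n : ℝ) ^ 1 := by
  rcases Nat.eq_zero_or_pos n with h | h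
  · subst h; simp
  · refine (norm_muC_le n).trans ?_
    rw [pow_one]
    exact_mod_cast h

theorem pmul_bound {w : ℂ} (hw : 0 ≤ w.re) (n : ℕ) :
    ‖(muC.pmul (pw w)) n‖ ≤ (n : ℝ) ^ 1 := by
  rw [ArithmeticFunction.pmul_apply, norm_mul]
  rcases Nat.eq_zero_or_pos n with h | h
  · subst h; simp
  · have h1 : ‖pw w n‖ ≤ 1 := by
      show ‖(if n = 0 then (0 : ℂ) else (n : ℂ) ^ (-w))‖ ≤ 1
      rw [if_neg (by omega), Complex.norm_natCast_cpow_of_pos h, Complex.neg_re]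
      exact Real.rpow_le_one_of_one_le_of_nonpos (by exact_mod_cast h) (by linarith)
    calc ‖muC n‖ * ‖pw w n‖ ≤ 1 * 1 := mul_le_mul (norm_muC_le n) h1 (norm_nonneg _) (by norm_num)
      _ ≤ (n : ℝ) ^ 1 := by
        rw [pow_one, one_mul]
        exact_mod_cast h

theorem hh_bound {a : Fin 3 → ℂ} {w : ℂ} (ha : ∀ i, -1 ≤ (a i).re) (hw : 0 ≤ w.re) (n : ℕ) :
    ‖hh a w n‖ ≤ (n : ℝ) ^ 5 := by
  unfold hh
  have h1 := conv_bound (pw (a 0)) (pw (a 1)) 1 (pw_bound (ha 0)) (pw_bound (ha 1))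
  have h2 := conv_bound (pw (a 0) * pw (a 1)) (pw (a 2)) 2 h1
    (bound_mono le_rfl (by norm_num) (pw_bound (ha 2)))
  have h3 := conv_bound (pw (a 0) * pw (a 1) * pw (a 2)) muC 3 h2
    (bound_mono le_rfl (by norm_num) muC_bound)
  exact conv_bound (pw (a 0) * pw (a 1) * pw (a 2) * muC) (muC.pmul (pw w)) 4 h3
    (bound_mono le_rfl (by norm_num) (pmul_bound hw)) n

/-! ### Continuity of `hh` -/

theorem cont_mul {X : Type*} [TopologicalSpace X] {f g : X → ArithmeticFunction ℂ}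
    (hf : ∀ n, Continuous fun x => f x n) (hg : ∀ n, Continuous fun x => g x n) (n : ℕ) :
    Continuous fun x => (f x * g x) n := by
  simp only [ArithmeticFunction.mul_apply]
  exact continuous_finsetSum _ fun y _ => (hf _).mul (hg _)

theorem cont_pw {X : Type*} [TopologicalSpace X] {f : X → ℂ} (hf : Continuous f) (n : ℕ) :
    Continuous fun x => pw (f x) n := by
  show Continuous fun x => (if n = 0 then (0 : ℂ) else (n : ℂ) ^ (-(f x)))
  by_cases h : n = 0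
  · simp only [if_pos h]
    exact continuous_const
  · simp only [if_neg h]
    exact hf.neg.const_cpow (Or.inl (by exact_mod_cast h))

theorem cont_hh (T : ℝ) (w : ℂ) (n : ℕ) : Continuous fun A : Fin 3 → ℂ => hh (sc T A) w n := by
  unfold hh
  have hc : ∀ i, Continuous fun A : Fin 3 → ℂ => sc T A i := fun i => by
    unfold sc
    exact (continuous_apply i).div_const _
  exact cont_mul (cont_mul (cont_mul (cont_mul (cont_pw (hc 0)) (cont_pw (hc 1)))
    (cont_pw (hc 2))) (fun n => continuous_const)) (fun n => continuous_const) n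

theorem ramC_bound (m n : ℕ) (hm : m ≠ 0) : |ramC m n| ≤ ∑ d ∈ m.divisors, (d : ℝ) := by
  unfold ramC
  refine (Finset.abs_sum_le_sum_abs _ _).trans ?_
  have hg : Nat.gcd m n ≠ 0 := by
    have := Nat.gcd_pos_of_pos_left n (Nat.pos_of_ne_zero hm)
    omega
  have h1 : ∀ d ∈ (Nat.gcd m n).divisors,
      |(d : ℝ) * ((ArithmeticFunction.moebius (m / d) : ℤ) : ℝ)| ≤ (d : ℝ) := by
    intro d _
    rw [abs_mul, Nat.abs_cast]
    have : |((ArithmeticFunction.moebius (m / d) : ℤ) : ℝ)| ≤ 1 := by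
      rw [← Int.cast_abs]
      exact_mod_cast ArithmeticFunction.abs_moebius_le_one
    exact mul_le_of_le_one_right (by positivity) this
  refine (Finset.sum_le_sum h1).trans ?_
  refine Finset.sum_le_sum_of_subset_of_nonneg ?_ fun i _ _ => by positivity
  exact Nat.divisors_subset_of_dvd hm (Nat.gcd_dvd_left m n)

theorem log_ge_one {T : ℝ} (hT : 3 ≤ T) : 1 ≤ Real.log T := by
  rw [Real.le_log_iff_exp_le (by linarith)]
  have := Real.exp_one_lt_d9
  linarith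

theorem sc_re {T : ℝ} (hT : 3 ≤ T) {A : Fin 3 → ℂ} (hA : A ∈ pd) (i : Fin 3) :
    -(1 / 4) ≤ (sc T A i).re := by
  have hl := log_ge_one hT
  have h1 : ‖sc T A i‖ ≤ 1 / 4 := by
    unfold sc
    rw [norm_div, Complex.norm_real, Real.norm_of_nonneg (by linarith)]
    rw [div_le_iff₀ (by linarith)]
    have := hA i
    nlinarith
  have h2 := Complex.abs_re_le_norm (sc T A i)
  have h3 := abs_le.1 (h2.trans h1)
  linarith [h3.1]

theorem cont_part (hGM : GmStatement) (th c1 c2 T : ℝ) (hT : 3 ≤ T) (j : ℕ) (W : ℂ)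
    (hW : W.re = 2) :
    ContinuousOn (fun A => RR th c1 c2 T j (sc T A) (W / Real.log T)) pd := by
  unfold RR
  refine continuousOn_finsetSum _ fun m hm => ?_
  rw [Finset.mem_Icc] at hm
  refine continuousOn_const.mul ?_
  have hl := log_ge_one hT
  have hw : 0 ≤ (W / (Real.log T : ℂ)).re := by
    rw [Complex.div_ofReal_re, hW]
    positivity
  set B := (∑ d ∈ m.divisors, (d : ℝ)) * ((m : ℝ) ^ (7 : ℝ) * ((2 * Real.pi)⁻¹ *
      ∫ y : ℝ, ‖Gm j T ((7 : ℝ) + y * I)‖)) with hB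
  have hB0 : 0 ≤ B := by
    rw [hB]
    have : 0 ≤ ∫ y : ℝ, ‖Gm j T ((7 : ℝ) + y * I)‖ :=
      MeasureTheory.integral_nonneg fun y => norm_nonneg _
    positivity
  refine continuousOn_tsum (u := fun n : ℕ => B * (1 / (n : ℝ) ^ 2))
    (fun n => ((cont_hh T _ n).mul continuous_const).continuousOn)
    ((Real.summable_one_div_nat_pow.2 (by norm_num)).mul_left B) ?_
  intro n A hA
  rcases Nat.eq_zero_or_pos n with h | h
  · subst h
    simp
  rw [norm_mul, Complex.norm_real, Real.norm_eq_abs]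
  have h1 := hh_bound (a := sc T A) (w := W / (Real.log T : ℂ))
    (fun i => by linarith [sc_re hT hA i]) hw n
  have hm0 : 0 < m := hm.1
  have hx : 0 < (n : ℝ) / m := by positivity
  have h2 := F_bound hGM j T 7 ((n : ℝ) / m) hT (by norm_num) hx
  have h3 := ramC_bound m n (by omega)
  have h4 : |ramC m n * Real.log ((n : ℝ) / m) ^ j * GG T ((n : ℝ) / m)| ≤
      (∑ d ∈ m.divisors, (d : ℝ)) * (((n : ℝ) / m) ^ (-(7 : ℝ)) * ((2 * Real.pi)⁻¹ *
      ∫ y : ℝ, ‖Gm j T ((7 : ℝ) + y * I)‖)) := by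
    rw [mul_assoc, abs_mul]
    exact mul_le_mul h3 h2 (abs_nonneg _) (Finset.sum_nonneg fun _ _ => by positivity)
  have h5 : ((n : ℝ) / m) ^ (-(7 : ℝ)) = (m : ℝ) ^ (7 : ℝ) * (1 / (n : ℝ) ^ 7) := by
    rw [Real.rpow_neg hx.le, Real.div_rpow (by positivity) (by positivity), inv_div]
    rw [div_eq_mul_one_div]
    congr 2
    norm_cast
  rw [h5] at h4
  calc ‖hh (sc T A) (W / (Real.log T : ℂ)) n‖ *
        |ramC m n * Real.log ((n : ℝ) / m) ^ j * GG T ((n : ℝ) / m)|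
      ≤ (n : ℝ) ^ 5 * ((∑ d ∈ m.divisors, (d : ℝ)) * ((m : ℝ) ^ (7 : ℝ) * (1 / (n : ℝ) ^ 7) *
          ((2 * Real.pi)⁻¹ * ∫ y : ℝ, ‖Gm j T ((7 : ℝ) + y * I)‖))) :=
        mul_le_mul h1 h4 (abs_nonneg _) (by positivity)
    _ = B * (1 / (n : ℝ) ^ 2) := by
      rw [hB]
      have hn0 : (n : ℝ) ≠ 0 := by positivity
      generalize ∫ y : ℝ, ‖Gm j T ((7 : ℝ) + y * I)‖ = J
      field_simp

/-! ### The inversion -/

theorem norm_term (c : ℂ) (n : ℕ) (y : ℝ) (hn : 0 < n) :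
    ‖c * (n : ℂ) ^ (-((2 : ℂ) + y * I))‖ = ‖c * (n : ℂ) ^ (-(2 : ℂ))‖ := by
  rw [norm_mul, norm_mul, Complex.norm_natCast_cpow_of_pos hn,
    Complex.norm_natCast_cpow_of_pos hn]
  simp

theorem inv_part (hCID : CidStatement) (hGM : GmStatement) (T : ℝ) (hT : 3 ≤ T) (j : ℕ)
    (a : Fin 3 → ℂ) (w : ℂ) (ha : ∀ i, -(1 / 4) ≤ (a i).re) (hw : 0 ≤ w.re) (m : ℕ)
    (hm : Squarefree m) :
    MeasureTheory.Integrable (fun t : ℝ => Gm j T (2 + t * I) * (m : ℂ) ^ ((2 : ℂ) + t * I) *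
      (Hz (2 + t * I) a w * (m.totient : ℂ) * fm m (2 + t * I) a w)) ∧
    ∑' n : ℕ, hh a w n * ((ramC m n * Real.log ((n : ℝ) / m) ^ j * GG T ((n : ℝ) / m) : ℝ) : ℂ) =
      ((2 * Real.pi : ℝ) : ℂ)⁻¹ * ∫ t : ℝ, Gm j T (2 + t * I) * (m : ℂ) ^ ((2 : ℂ) + t * I) *
        (Hz (2 + t * I) a w * (m.totient : ℂ) * fm m (2 + t * I) a w) := by
  have hm0 : 0 < m := Nat.pos_of_ne_zero hm.ne_zero
  have hcid : ∀ t : ℝ,
      Summable (fun n : ℕ => ‖hh a w n * (ramC m n : ℂ) * (n : ℂ) ^ (-((2 : ℂ) + t * I))‖) ∧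
      ∑' n : ℕ, hh a w n * (ramC m n : ℂ) * (n : ℂ) ^ (-((2 : ℂ) + t * I)) =
        Hz (2 + t * I) a w * (m.totient : ℂ) * fm m (2 + t * I) a w := by
    intro t
    refine hCID m hm a w (2 + t * I) ?_ ?_ fun i => ?_
    · simp
    · simp; linarith
    · simp; linarith [ha i]
  -- the coefficients
  set c : ℕ → ℂ := fun n => hh a w n * (ramC m n : ℂ) with hc
  have hc0 : c 0 = 0 := by simp [hc]
  have hsum : Summable (fun n : ℕ => ‖c n * (n : ℂ) ^ (-(2 : ℂ))‖) := by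
    have := (hcid 0).1
    rw [show ((2 : ℂ) + ((0 : ℝ) : ℂ) * I) = 2 by simp] at this
    exact this
  obtain ⟨hGi, -⟩ := hGM.1 j T 2 1 hT (by norm_num) (by norm_num)
  have hGi' : MeasureTheory.Integrable (fun y : ℝ => Gm j T ((2 : ℂ) + y * I)) := by
    simpa using hGi
  -- continuity of the Dirichlet series on the line
  have hDc : Continuous fun t : ℝ => ∑' n : ℕ, c n * (n : ℂ) ^ (-((2 : ℂ) + t * I)) := by
    refine continuous_tsum (u := fun n : ℕ => ‖c n * (n : ℂ) ^ (-(2 : ℂ))‖) (fun n => ?_) hsum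
      fun n t => ?_
    · rcases Nat.eq_zero_or_pos n with h | h
      · subst h
        simp only [hc0, zero_mul]
        exact continuous_const
      · refine continuous_const.mul (Continuous.const_cpow ?_ (Or.inl ?_))
        · fun_prop
        · exact_mod_cast h.ne'
    · rcases Nat.eq_zero_or_pos n with h | h
      · subst h
        simp only [hc0, zero_mul]
        exact le_rfl
      · exact (norm_term (c n) n t h).le
  have hDb : ∀ t : ℝ, ‖∑' n : ℕ, c n * (n : ℂ) ^ (-((2 : ℂ) + t * I))‖ ≤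
      ∑' n : ℕ, ‖c n * (n : ℂ) ^ (-(2 : ℂ))‖ := by
    intro t
    refine (norm_tsum_le_tsum_norm (hcid t).1).trans (le_of_eq ?_)
    refine tsum_congr fun n => ?_
    rcases Nat.eq_zero_or_pos n with h | h
    · subst h
      simp only [hc0, zero_mul]
      simp
    · exact norm_term (c n) n t h
  have hmc : Continuous fun t : ℝ => (m : ℂ) ^ ((2 : ℂ) + t * I) :=
    Continuous.const_cpow (by fun_prop) (Or.inl (by exact_mod_cast hm0.ne'))
  have hint : MeasureTheory.Integrable (fun t : ℝ => Gm j T (2 + t * I) *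
      (m : ℂ) ^ ((2 : ℂ) + t * I) * (∑' n : ℕ, c n * (n : ℂ) ^ (-((2 : ℂ) + t * I)))) := by
    have h1 : MeasureTheory.Integrable (fun t : ℝ => ((m : ℂ) ^ ((2 : ℂ) + t * I) *
        (∑' n : ℕ, c n * (n : ℂ) ^ (-((2 : ℂ) + t * I)))) * Gm j T (2 + t * I)) := by
      refine hGi'.bdd_mul (c := (m : ℝ) ^ (2 : ℝ) * ∑' n : ℕ, ‖c n * (n : ℂ) ^ (-(2 : ℂ))‖)
        (hmc.mul hDc).aestronglyMeasurable (Eventually.of_forall fun t => ?_)
      rw [norm_mul]
      have h2 : ‖(m : ℂ) ^ ((2 : ℂ) + t * I)‖ = (m : ℝ) ^ (2 : ℝ) := by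
        rw [Complex.norm_natCast_cpow_of_pos hm0]
        simp
      rw [h2]
      exact mul_le_mul_of_nonneg_left (hDb t) (by positivity)
    refine h1.congr (Eventually.of_forall fun t => ?_)
    simp only
    ring
  have hcongr : (fun t : ℝ => Gm j T (2 + t * I) * (m : ℂ) ^ ((2 : ℂ) + t * I) *
      (∑' n : ℕ, c n * (n : ℂ) ^ (-((2 : ℂ) + t * I)))) =
      fun t : ℝ => Gm j T (2 + t * I) * (m : ℂ) ^ ((2 : ℂ) + t * I) *
        (Hz (2 + t * I) a w * (m.totient : ℂ) * fm m (2 + t * I) a w) := by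
    funext t
    rw [(hcid t).2]
  refine ⟨by rw [← hcongr]; exact hint, ?_⟩
  rw [← hcongr]
  -- the functions to be exchanged
  set f : ℕ → ℝ → ℂ := fun n t => c n * ((((n : ℝ) / (m : ℝ)) : ℝ) : ℂ) ^ (-((2 : ℂ) + t * I)) *
    Gm j T (2 + t * I) with hf
  have hf0 : f 0 = fun _ => 0 := by
    funext t
    simp only [hf, hc0, zero_mul]
  have hfn : ∀ n, 0 < n → ∀ t, f n t = (c n * (n : ℂ) ^ (-((2 : ℂ) + t * I))) *
      ((m : ℂ) ^ ((2 : ℂ) + t * I) * Gm j T (2 + t * I)) := by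
    intro n hn t
    simp only [hf]
    rw [cpow_div n m hn hm0]
    ring
  have hnorm : ∀ n t, ‖f n t‖ = ‖c n * (n : ℂ) ^ (-(2 : ℂ))‖ * ((m : ℝ) ^ (2 : ℝ) *
      ‖Gm j T (2 + t * I)‖) := by
    intro n t
    rcases Nat.eq_zero_or_pos n with h | h
    · subst h
      rw [hf0]
      simp [hc0]
    · rw [hfn n h t, norm_mul, norm_term (c n) n t h, norm_mul ((m : ℂ) ^ ((2 : ℂ) + t * I)),
        Complex.norm_natCast_cpow_of_pos hm0]
      simp
  have hfi : ∀ n, MeasureTheory.Integrable (f n) := by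
    intro n
    rcases Nat.eq_zero_or_pos n with h | h
    · subst h
      rw [hf0]
      exact MeasureTheory.integrable_zero _ _ _
    · have hx : (0 : ℝ) < (n : ℝ) / m := by positivity
      have hcn : Continuous fun t : ℝ =>
          c n * ((((n : ℝ) / (m : ℝ)) : ℝ) : ℂ) ^ (-((2 : ℂ) + t * I)) := by
        refine continuous_const.mul (Continuous.const_cpow (by fun_prop) (Or.inl ?_))
        exact_mod_cast hx.ne'
      refine hGi'.bdd_mul (c := ‖c n‖ * ((n : ℝ) / m) ^ (-(2 : ℝ))) hcn.aestronglyMeasurable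
        (Eventually.of_forall fun t => ?_)
      rw [norm_mul]
      have := norm_cpow_pos hx 2 t
      rw [show (((2 : ℝ) : ℂ)) = (2 : ℂ) by norm_num] at this
      rw [this]
  have hfs : Summable fun n => ∫ t : ℝ, ‖f n t‖ := by
    have h1 : (fun n => ∫ t : ℝ, ‖f n t‖) = fun n => ‖c n * (n : ℂ) ^ (-(2 : ℂ))‖ *
        ∫ t : ℝ, ((m : ℝ) ^ (2 : ℝ) * ‖Gm j T (2 + t * I)‖) := by
      funext n
      rw [← MeasureTheory.integral_const_mul]
      exact MeasureTheory.integral_congr_ae (Eventually.of_forall fun t => hnorm n t)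
    rw [h1]
    exact hsum.mul_right _
  have hex := (MeasureTheory.hasSum_integral_of_summable_integral_norm hfi hfs).tsum_eq
  -- left side
  have hL : ∀ n : ℕ, hh a w n *
      ((ramC m n * Real.log ((n : ℝ) / m) ^ j * GG T ((n : ℝ) / m) : ℝ) : ℂ) =
      ((2 * Real.pi : ℝ) : ℂ)⁻¹ * ∫ t : ℝ, f n t := by
    intro n
    rcases Nat.eq_zero_or_pos n with h | h
    · subst h
      rw [hf0]
      simp
    · have hx : (0 : ℝ) < (n : ℝ) / m := by positivity
      obtain ⟨-, h2⟩ := hGM.1 j T 2 ((n : ℝ) / m) hT (by norm_num) hx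
      rw [show (((2 : ℝ) : ℂ)) = (2 : ℂ) by norm_num] at h2
      have h3 : ((ramC m n * Real.log ((n : ℝ) / m) ^ j * GG T ((n : ℝ) / m) : ℝ) : ℂ) =
          (ramC m n : ℂ) * ((Real.log ((n : ℝ) / m) ^ j * GG T ((n : ℝ) / m) : ℝ) : ℂ) := by
        push_cast; ring
      rw [h3, h2]
      have h4 : ∫ t : ℝ, f n t = c n * ∫ t : ℝ,
          ((((n : ℝ) / (m : ℝ)) : ℝ) : ℂ) ^ (-((2 : ℂ) + t * I)) * Gm j T (2 + t * I) := by
        rw [← MeasureTheory.integral_const_mul]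
        refine MeasureTheory.integral_congr_ae (Eventually.of_forall fun t => ?_)
        simp only [hf]
        ring
      rw [h4]
      simp only [hc]
      ring
  simp only [hL]
  rw [tsum_mul_left, hex]
  congr 1
  refine MeasureTheory.integral_congr_ae (Eventually.of_forall fun t => ?_)
  simp only
  rw [mul_comm (Gm j T (2 + t * I)) ((m : ℂ) ^ ((2 : ℂ) + t * I)), mul_comm _ (∑' n : ℕ, _),
    ← tsum_mul_right]
  refine tsum_congr fun n => ?_
  rcases Nat.eq_zero_or_pos n with h | h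
  · subst h
    rw [hf0]
    simp [hc0]
  · rw [hfn n h t]

theorem r2 (hCID : CidStatement) (hGM : GmStatement) : R2Statement := by
  intro th c1 c2 _ _
  refine ⟨3, fun T hT j W hW => ⟨cont_part hGM th c1 c2 T hT j W hW, fun A hA => ?_⟩⟩
  have hl := log_ge_one hT
  have hw : 0 ≤ (W / (Real.log T : ℂ)).re := by
    rw [Complex.div_ofReal_re, hW]
    positivity
  set a := sc T A with ha
  set w := W / (Real.log T : ℂ) with hwd
  have har : ∀ i, -(1 / 4) ≤ (a i).re := fun i => sc_re hT hA i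
  -- each m
  have hterm : ∀ m ∈ Finset.Icc 1 ⌊T ^ th⌋₊,
      MeasureTheory.Integrable (fun t : ℝ => Gm j T (2 + t * I) * Hz (2 + t * I) a w *
        ((betf th c1 c2 T m : ℂ) * (m : ℂ) ^ ((2 : ℂ) + t * I - 1) * fm m (2 + t * I) a w)) ∧
      ((betf th c1 c2 T m / (m * (Nat.totient m : ℝ)) : ℝ) : ℂ) *
        ∑' n : ℕ, hh a w n *
          ((ramC m n * Real.log ((n : ℝ) / m) ^ j * GG T ((n : ℝ) / m) : ℝ) : ℂ) =
      ((2 * Real.pi : ℝ) : ℂ)⁻¹ * ∫ t : ℝ, Gm j T (2 + t * I) * Hz (2 + t * I) a w *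
        ((betf th c1 c2 T m : ℂ) * (m : ℂ) ^ ((2 : ℂ) + t * I - 1) *
          fm m (2 + t * I) a w) := by
    intro m hm
    rw [Finset.mem_Icc] at hm
    by_cases hsq : Squarefree m
    · obtain ⟨h1, h2⟩ := inv_part hCID hGM T hT j a w har hw m hsq
      have hm0 : (m : ℂ) ≠ 0 := by exact_mod_cast (by omega : m ≠ 0)
      have hφ0 : (m.totient : ℂ) ≠ 0 := by
        exact_mod_cast (Nat.totient_pos.2 (by omega)).ne'
      have hfun : (fun t : ℝ => Gm j T (2 + t * I) * Hz (2 + t * I) a w *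
          ((betf th c1 c2 T m : ℂ) * (m : ℂ) ^ ((2 : ℂ) + t * I - 1) *
            fm m (2 + t * I) a w)) =
          fun t : ℝ => ((betf th c1 c2 T m / (m * (Nat.totient m : ℝ)) : ℝ) : ℂ) *
            (Gm j T (2 + t * I) * (m : ℂ) ^ ((2 : ℂ) + t * I) *
              (Hz (2 + t * I) a w * (m.totient : ℂ) * fm m (2 + t * I) a w)) := by
        funext t
        rw [Complex.cpow_sub _ _ hm0, Complex.cpow_one]
        push_cast
        field_simp
      rw [hfun]
      refine ⟨h1.const_mul _, ?_⟩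
      rw [h2, MeasureTheory.integral_const_mul]
      ring
    · have hb : betf th c1 c2 T m = 0 := by
        unfold betf
        rw [ArithmeticFunction.moebius_eq_zero_of_not_squarefree hsq]
        simp
      rw [hb]
      simp
  unfold RR NN
  rw [Finset.sum_congr rfl fun m hm => (hterm m hm).2, ← Finset.mul_sum]
  congr 1
  rw [← MeasureTheory.integral_finsetSum _ fun m hm => (hterm m hm).1]
  refine MeasureTheory.integral_congr_ae (Eventually.of_forall fun t => ?_)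
  simp only
  rw [Finset.mul_sum]

end Pool.Agent.Lib.MP_6bc78b_nt.MS.P3.H33
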